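import Mathlib
import Pool.Agent.H29.Weyl2

namespace Pool.Agent.Results.MP_2aa58c_an.Counter
open Set Topology Pool.Agent.H29.Weyl2

/-- The group of matrices `[[1,a,c],[0,1,k],[0,0,1]]` with `a, c` real and `k` an integer,
in coordinates `(a, k, c)`. -/
def G : Type := ℝ × ℤ × ℝ

/-- Product (sup) metric, hence the product topology, on `ℝ × ℤ × ℝ`. -/
noncomputable instance instMet : MetricSpace G := inferInstanceAs (MetricSpace (ℝ × ℤ × ℝ))

/-- Heisenberg multiplication. -/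
instance instGrp : Group G where
  mul g h := (g.1 + h.1, g.2.1 + h.2.1, g.2.2 + h.2.2 + g.1 * (h.2.1 : ℝ))
  one := ((0 : ℝ), (0 : ℤ), (0 : ℝ))
  inv g := (-g.1, -g.2.1, -g.2.2 + g.1 * (g.2.1 : ℝ))
  mul_assoc a b c := by
    refine Prod.ext (add_assoc _ _ _) (Prod.ext (add_assoc _ _ _) ?_)
    change a.2.2 + b.2.2 + a.1 * (b.2.1 : ℝ) + c.2.2 + (a.1 + b.1) * (c.2.1 : ℝ) =
      a.2.2 + (b.2.2 + c.2.2 + b.1 * (c.2.1 : ℝ)) + a.1 * ((b.2.1 + c.2.1 : ℤ) : ℝ)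
    push_cast; ring
  one_mul a := by
    refine Prod.ext (zero_add _) (Prod.ext (zero_add _) ?_)
    change 0 + a.2.2 + 0 * (a.2.1 : ℝ) = a.2.2
    ring
  mul_one a := by
    refine Prod.ext (add_zero _) (Prod.ext (add_zero _) ?_)
    change a.2.2 + 0 + a.1 * ((0 : ℤ) : ℝ) = a.2.2
    simp
  inv_mul_cancel a := by
    refine Prod.ext (neg_add_cancel _) (Prod.ext (neg_add_cancel _) ?_)
    change -a.2.2 + a.1 * (a.2.1 : ℝ) + a.2.2 + -a.1 * (a.2.1 : ℝ) = 0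
    ring

/-- `ℤ` as a zero-dimensional manifold. -/
@[reducible] noncomputable def chZ : ChartedSpace (Fin 0 → ℝ) ℤ := ChartedSpace.ofDiscreteTopology

/-- Model space of the product manifold `ℝ × ℤ × ℝ`. -/
abbrev HM : Type := ModelProd ℝ (ModelProd (Fin 0 → ℝ) ℝ)

/-- Product manifold structure on `ℝ × ℤ × ℝ`. -/
noncomputable instance instCh : ChartedSpace HM G :=
  letI := chZ
  inferInstanceAs (ChartedSpace HM (ℝ × ℤ × ℝ))

/-- Product model (no boundary). -/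
noncomputable abbrev IM : ModelWithCorners ℝ (ℝ × (Fin 0 → ℝ) × ℝ) HM :=
  (modelWithCornersSelf ℝ ℝ).prod
    ((modelWithCornersSelf ℝ (Fin 0 → ℝ)).prod (modelWithCornersSelf ℝ ℝ))

/-- Left translation by `τ` on `G ⧸ Γ` is minimal: every two-sided orbit is dense. -/
def Minimal (Γ : Subgroup G) (τ : G) : Prop :=
  ∀ x : G ⧸ Γ, Dense (range fun n : ℤ => τ ^ n • x)

/-- `U` has asymmetric closure. -/
def Asym (Γ : Subgroup G) (U : Set (G ⧸ Γ)) : Prop :=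
  ∀ g : G, (fun x => g • x) '' closure U = closure U → ∀ x : G ⧸ Γ, g • x = x

lemma m1 (g h : G) : (g * h).1 = g.1 + h.1 := rfl
lemma m2 (g h : G) : (g * h).2.1 = g.2.1 + h.2.1 := rfl
lemma m3 (g h : G) : (g * h).2.2 = g.2.2 + h.2.2 + g.1 * (h.2.1 : ℝ) := rfl
lemma i1 (g : G) : (g⁻¹).1 = -g.1 := rfl
lemma i2 (g : G) : (g⁻¹).2.1 = -g.2.1 := rfl
lemma i3 (g : G) : (g⁻¹).2.2 = -g.2.2 + g.1 * (g.2.1 : ℝ) := rfl
lemma o1 : (1 : G).1 = 0 := rfl
lemma o2 : (1 : G).2.1 = 0 := rfl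
lemma o3 : (1 : G).2.2 = 0 := rfl
lemma gext {g h : G} (h1 : g.1 = h.1) (h2 : g.2.1 = h.2.1) (h3 : g.2.2 = h.2.2) : g = h :=
  Prod.ext h1 (Prod.ext h2 h3)

def mk3 (a : ℝ) (k : ℤ) (c : ℝ) : G := (a, k, c)
lemma k1 (a : ℝ) (k : ℤ) (c : ℝ) : (mk3 a k c).1 = a := rfl
lemma k2 (a : ℝ) (k : ℤ) (c : ℝ) : (mk3 a k c).2.1 = k := rfl
lemma k3 (a : ℝ) (k : ℤ) (c : ℝ) : (mk3 a k c).2.2 = c := rfl

lemma c1 : Continuous fun g : G => g.1 := continuous_fst (X := ℝ) (Y := ℤ × ℝ)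
lemma c2 : Continuous fun g : G => g.2.1 :=
  (continuous_snd (X := ℝ) (Y := ℤ × ℝ)).fst
lemma c3 : Continuous fun g : G => g.2.2 :=
  (continuous_snd (X := ℝ) (Y := ℤ × ℝ)).snd
lemma c2' (f : ℤ → ℝ) : Continuous fun g : G => f g.2.1 :=
  (continuous_of_discreteTopology (f := f)).comp c2

lemma cmk {Z : Type} [TopologicalSpace Z] {a : Z → ℝ} {k : Z → ℤ} {c : Z → ℝ}
    (ha : Continuous a) (hk : Continuous k) (hc : Continuous c) :
    Continuous fun z => mk3 (a z) (k z) (c z) := ha.prodMk (hk.prodMk hc)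

instance instTG : IsTopologicalGroup G where
  continuous_mul := cmk ((c1.comp continuous_fst).add (c1.comp continuous_snd))
    ((c2.comp continuous_fst).add (c2.comp continuous_snd))
    (((c3.comp continuous_fst).add (c3.comp continuous_snd)).add
      ((c1.comp continuous_fst).mul ((c2' fun k => (k : ℝ)).comp continuous_snd)))
  continuous_inv := cmk c1.neg c2.neg (c3.neg.add (c1.mul (c2' fun k => (k : ℝ))))

def Gam (d : ℤ) : Subgroup G where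
  carrier := {g | ∃ m j p : ℤ, g.1 = d * m ∧ g.2.1 = 2 * j ∧ g.2.2 = 2 * p}
  mul_mem' := by
    rintro g h ⟨m, j, p, h1, h2, h3⟩ ⟨m', j', p', h1', h2', h3'⟩
    refine ⟨m + m', j + j', p + p' + d * m * j', ?_, ?_, ?_⟩
    · rw [m1, h1, h1']; push_cast; ring
    · rw [m2, h2, h2']; ring
    · rw [m3, h1, h3, h3', h2']; push_cast; ring
  one_mem' := ⟨0, 0, 0, by simp [o1], by simp [o2], by simp [o3]⟩
  inv_mem' := by
    rintro g ⟨m, j, p, h1, h2, h3⟩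
    refine ⟨-m, -j, -p + d * m * j, ?_, ?_, ?_⟩
    · rw [i1, h1]; push_cast; ring
    · rw [i2, h2]; ring
    · rw [i3, h1, h2, h3]; push_cast; ring

lemma gam_le (d : ℤ) (hd : d ∣ 2) : Gam 2 ≤ Gam d := by
  obtain ⟨e, he⟩ := hd
  rintro g ⟨m, j, p, h1, h2, h3⟩
  refine ⟨e * m, j, p, ?_, h2, h3⟩
  rw [h1, he]; push_cast; ring

lemma int_small (n : ℤ) (h : |(n : ℝ)| < 1) : n = 0 := by
  have : |n| < 1 := by exact_mod_cast h
  exact Int.abs_lt_one_iff.1 this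

instance disc (d : ℤ) : DiscreteTopology (Gam d) := by
  rw [discreteTopology_iff_isOpen_singleton_one]
  have h : IsOpen {g : G | |g.1| < 1 ∧ |(g.2.1 : ℝ)| < 1 ∧ |g.2.2| < 1} :=
    (isOpen_lt c1.abs continuous_const).inter
      ((isOpen_lt (c2' fun k => |(k : ℝ)|) continuous_const).inter
        (isOpen_lt c3.abs continuous_const))
  convert h.preimage (continuous_subtype_val (p := fun g => g ∈ Gam d)) using 1
  ext ⟨g, m, j, p, h1, h2, h3⟩
  simp only [mem_singleton_iff, mem_preimage, mem_setOf_eq]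
  constructor
  · intro hg
    obtain rfl : g = 1 := congrArg Subtype.val hg
    simp [o1, o2, o3]
  · rintro ⟨a1, a2, a3⟩
    refine Subtype.ext (gext ?_ (int_small _ a2) ?_)
    · have := int_small (d * m) (by push_cast; rwa [← h1])
      change g.1 = 0
      rw [h1]; exact_mod_cast this
    · have := int_small (2 * p) (by push_cast; rwa [← h3])
      change g.2.2 = 0
      rw [h3]; exact_mod_cast this

lemma fl (x : ℝ) : x + 2 * (-⌊x / 2⌋ : ℤ) ∈ Icc (0 : ℝ) 2 := by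
  have h1 := Int.floor_le (x / 2)
  have h2 := Int.lt_floor_add_one (x / 2)
  push_cast
  constructor <;> linarith

lemma cpt (d : ℤ) (hd : d ∣ 2) : CompactSpace (G ⧸ Gam d) := by
  have hK : IsCompact ((Icc (0 : ℝ) 2) ×ˢ ((Icc (0 : ℤ) 1) ×ˢ (Icc (0 : ℝ) 2)) : Set G) :=
    isCompact_Icc.prod ((finite_Icc _ _).isCompact.prod isCompact_Icc)
  refine ⟨(hK.image (QuotientGroup.continuous_mk (N := Gam d))).of_isClosed_subset isClosed_univ ?_⟩
  rintro x -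
  obtain ⟨g, rfl⟩ := QuotientGroup.mk_surjective x
  let γ : G := mk3 (2 * (-⌊g.1 / 2⌋ : ℤ)) (2 * (-(g.2.1 / 2)))
    (2 * (-⌊(g.2.2 + g.1 * ((2 * (-(g.2.1 / 2)) : ℤ) : ℝ)) / 2⌋ : ℤ))
  have hγ : γ ∈ Gam d := gam_le d hd ⟨_, _, _, by simp only [γ, k1]; norm_cast, rfl, rfl⟩
  refine ⟨g * γ, ⟨fl g.1, ?_, ?_⟩, QuotientGroup.mk_mul_of_mem g hγ⟩
  · change g.2.1 + 2 * (-(g.2.1 / 2)) ∈ Icc (0 : ℤ) 1
    constructor <;> omega
  · have := fl (g.2.2 + g.1 * ((2 * (-(g.2.1 / 2)) : ℤ) : ℝ))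
    change g.2.2 + _ + _ ∈ Icc (0 : ℝ) 2
    rw [add_right_comm]
    exact this

noncomputable def tau : G := mk3 (√2) 1 0

lemma tau_pow (n : ℤ) : tau ^ n = mk3 (n * √2) n (√2 * n * (n - 1) / 2) := by
  have step : ∀ n : ℤ, mk3 (n * √2) n (√2 * n * (n - 1) / 2) * tau =
      mk3 (((n + 1 : ℤ) : ℝ) * √2) (n + 1) (√2 * ((n + 1 : ℤ) : ℝ) * (((n + 1 : ℤ) : ℝ) - 1) / 2) := by
    intro n
    refine gext ?_ rfl ?_
    · simp only [m1, k1, tau]; push_cast; ring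
    · simp only [m3, k1, k2, k3, tau]; push_cast; ring
  induction n using Int.induction_on with
  | zero => exact gext (by simp [o1, k1]) rfl (by simp [o3, k3])
  | succ n ih => rw [zpow_add_one, ih, step]
  | pred n ih =>
    rw [zpow_sub_one, ih]
    have := step (-(n : ℤ) - 1)
    rw [sub_add_cancel] at this
    exact (eq_mul_inv_of_mul_eq this).symm

lemma up_dense (g : G) : DenseRange (fun q : ℤ × Gam 2 => tau ^ q.1 * g * (q.2 : G)) := by
  refine Metric.denseRange_iff.2 fun h δ hδ => ?_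
  set e : ℤ := h.2.1 - g.2.1 with he
  obtain ⟨j, m, p, h1, h2⟩ := real_dense (-√2) irrational_sqrt_two.neg
    ((√2 / 2 - √2 * g.2.1 + g.1) / 2) ((√2 * e * (e - 1) / 2 + g.2.2 + e * √2 * g.2.1) / 2)
    (h.1 / 2 - (e * √2 + g.1) / 2 + (√2 / 2 - √2 * g.2.1 + g.1) / 2) (h.2.2 / 2) (δ / 2)
    (by positivity)
  refine ⟨(e - 2 * j, ⟨mk3 (2 * m) (2 * j) (2 * p), m, j, p, by simp [k1], rfl, rfl⟩), ?_⟩
  rw [dist_comm]
  change max (dist (tau ^ (e - 2 * j) * g * mk3 (2 * m) (2 * j) (2 * p)).1 h.1)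
    (max (dist (tau ^ (e - 2 * j) * g * mk3 (2 * m) (2 * j) (2 * p)).2.1 h.2.1)
      (dist (tau ^ (e - 2 * j) * g * mk3 (2 * m) (2 * j) (2 * p)).2.2 h.2.2)) < δ
  rw [tau_pow]
  simp only [m1, m2, m3, k1, k2, k3, Real.dist_eq, max_lt_iff]
  rw [abs_lt] at h1 h2
  refine ⟨abs_lt.2 ⟨?_, ?_⟩, ?_, abs_lt.2 ⟨?_, ?_⟩⟩
  · push_cast; linarith [h1.1]
  · push_cast; linarith [h1.2]
  · rw [show e - 2 * j + g.2.1 + 2 * j = h.2.1 by omega, dist_self]; exact hδ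
  · push_cast; linarith [h2.1]
  · push_cast; linarith [h2.2]

lemma minimal (d : ℤ) (hd : d ∣ 2) : Minimal (Gam d) tau := by
  intro x
  obtain ⟨g, rfl⟩ := QuotientGroup.mk_surjective x
  have h := (QuotientGroup.mk_surjective (s := Gam d)).denseRange.comp (up_dense g)
    QuotientGroup.continuous_mk
  refine Dense.mono ?_ h
  rintro _ ⟨⟨n, γ⟩, rfl⟩
  exact ⟨n, (QuotientGroup.mk_mul_of_mem _ (gam_le d hd γ.2)).symm⟩

noncomputable def w (g : G) : ℝ := g.2.2 / 2 - g.1 * ((g.2.1 / 2 : ℤ) : ℝ)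

lemma cw : Continuous fun g => ‖((w g : ℝ) : C)‖ :=
  ((AddCircle.continuous_mk' (1 : ℝ)).comp
    ((c3.div_const 2).sub (c1.mul (c2' fun k => ((k / 2 : ℤ) : ℝ))))).norm

def V : Set G := {g | ‖((w g : ℝ) : C)‖ < 1 / 4}

lemma w_inv (d : ℤ) (g γ : G) (hγ : γ ∈ Gam d) : ((w (g * γ) : ℝ) : C) = (w g : ℝ) := by
  obtain ⟨m, j, p, h1, h2, h3⟩ := hγ
  have e : w (g * γ) = w g + ((p - d * m * (g.2.1 / 2 + j) : ℤ) : ℝ) := by
    simp only [w, m1, m2, m3, h1, h2, h3]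
    rw [show (g.2.1 + 2 * j) / 2 = g.2.1 / 2 + j by omega]
    push_cast; ring
  have : (((p - d * m * (g.2.1 / 2 + j) : ℤ) : ℝ) : C) = 0 :=
    (AddCircle.coe_eq_zero_iff (1 : ℝ)).2 ⟨p - d * m * (g.2.1 / 2 + j), by simp⟩
  rw [e, AddCircle.coe_add, this, add_zero]

def U (d : ℤ) : Set (G ⧸ Gam d) := QuotientGroup.mk '' V

lemma pre (d : ℤ) : QuotientGroup.mk ⁻¹' U d = V := by
  ext g
  refine ⟨?_, fun h => ⟨g, h, rfl⟩⟩
  rintro ⟨v, hv, hg⟩
  have h1 := w_inv d v _ (QuotientGroup.eq.1 hg)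
  rw [mul_inv_cancel_left] at h1
  simp only [V, mem_setOf_eq, h1]; exact hv

lemma asym (d : ℤ) (hd : d ∣ 2) : Asym (Gam d) (U d) := by
  intro g hg
  have hB : ∀ h ∈ V, ‖((w (g * h) : ℝ) : C)‖ ≤ 1 / 4 := by
    intro h hh
    have h1 : (QuotientGroup.mk (g * h) : G ⧸ Gam d) ∈ closure (U d) := by
      rw [← hg]; exact ⟨_, subset_closure ⟨h, hh, rfl⟩, rfl⟩
    have h2 := (QuotientGroup.isOpenMap_coe (N := Gam d)).preimage_closure_eq_closure_preimage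
      QuotientGroup.continuous_mk (U d)
    rw [pre] at h2
    have h3 : g * h ∈ closure V := h2 ▸ h1
    exact closure_minimal (t := {g | ‖((w g : ℝ) : C)‖ ≤ 1 / 4})
      (fun x (hx : ‖((w x : ℝ) : C)‖ < 1 / 4) => hx.le) (isClosed_le cw continuous_const) h3
  have key : ∀ (a : ℝ) (k : ℤ), k / 2 = 0 → ∃ n : ℤ,
      (g.2.2 + g.1 * k) / 2 - (g.1 + a) * (((g.2.1 + k) / 2 : ℤ) : ℝ) = n := by
    intro a k hk
    refine shift_int _ fun x hx => ?_
    have h1 := hB (mk3 a k (2 * x)) (by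
      simp only [V, mem_setOf_eq, w, k1, k2, k3, hk]; simpa using hx)
    simp only [w, m1, m2, m3, k1, k2, k3] at h1
    refine le_of_eq_of_le (congrArg (fun r : ℝ => ‖(r : C)‖) ?_) h1
    ring
  have kz : ∀ k : ℤ, k / 2 = 0 → (g.2.1 + k) / 2 = 0 := by
    intro k hk
    by_contra hne
    have hne' : (((g.2.1 + k) / 2 : ℤ) : ℝ) ≠ 0 := by exact_mod_cast hne
    obtain ⟨n, hn⟩ := key 0 k hk
    obtain ⟨n', hn'⟩ := key (1 / 2 / (((g.2.1 + k) / 2 : ℤ) : ℝ)) k hk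
    rw [add_mul, div_mul_cancel₀ _ hne'] at hn'
    have h1 : (1 : ℝ) = 2 * ((n - n' : ℤ) : ℝ) := by push_cast; linarith
    have h2 : (1 : ℤ) = 2 * (n - n') := by exact_mod_cast h1
    omega
  have z0 := kz 0 (by norm_num)
  have z1 := kz 1 (by norm_num)
  have hk : g.2.1 = 0 := by omega
  obtain ⟨n0, hn0⟩ := key 0 0 (by norm_num)
  obtain ⟨n1, hn1⟩ := key 0 1 (by norm_num)
  rw [z0] at hn0
  rw [z1] at hn1
  push_cast at hn0 hn1
  intro x
  obtain ⟨h, rfl⟩ := QuotientGroup.mk_surjective x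
  refine QuotientGroup.eq.2 (gam_le d hd ⟨n0 - n1, 0, -n0 - (n1 - n0) * h.2.1, ?_, ?_, ?_⟩)
  · simp only [smul_eq_mul, m1, i1]; push_cast; linarith
  · simp only [smul_eq_mul, m2, i2, hk]; ring
  · have e1 : g.2.2 = 2 * n0 := by linarith
    have e2 : g.1 = 2 * (n1 - n0) := by linarith
    simp only [smul_eq_mul, m1, m2, m3, i1, i2, i3, hk, e1, e2]; push_cast; ring

lemma nilp : Group.IsNilpotent G := by
  let f : G →* Multiplicative (ℝ × ℤ) :=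
    { toFun := fun g => Multiplicative.ofAdd (g.1, g.2.1)
      map_one' := rfl
      map_mul' := fun _ _ => rfl }
  refine isNilpotent_of_ker_le_center f (fun g hg => ?_)
  have h0 : (g.1, g.2.1) = ((0 : ℝ), (0 : ℤ)) := hg
  have h1 : g.1 = 0 := congrArg Prod.fst h0
  have h2 : g.2.1 = 0 := congrArg Prod.snd h0
  refine Subgroup.mem_center_iff.2 fun h => gext ?_ ?_ ?_
  · simp only [m1]; ring
  · simp only [m2]; ring
  · simp only [m3, h1, h2]; push_cast; ring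

section
attribute [local instance] chZ

lemma s1 : ContMDiff IM (modelWithCornersSelf ℝ ℝ) ⊤ fun g : G => g.1 :=
  contMDiff_fst (M := ℝ) (N := ℤ × ℝ)
lemma s2 : ContMDiff IM (modelWithCornersSelf ℝ (Fin 0 → ℝ)) ⊤ fun g : G => g.2.1 :=
  (contMDiff_snd (M := ℝ) (N := ℤ × ℝ)).fst
lemma s3 : ContMDiff IM (modelWithCornersSelf ℝ ℝ) ⊤ fun g : G => g.2.2 :=
  (contMDiff_snd (M := ℝ) (N := ℤ × ℝ)).snd
lemma sc : ContMDiff IM (modelWithCornersSelf ℝ ℝ) ⊤ fun g : G => (g.2.1 : ℝ) :=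
  (contMDiff_of_discreteTopology (f := fun k : ℤ => (k : ℝ))).comp s2

lemma man : IsManifold IM ⊤ G :=
  haveI : IsManifold (modelWithCornersSelf ℝ (Fin 0 → ℝ)) ⊤ ℤ := IsManifold.of_discreteTopology ⊤
  inferInstanceAs (IsManifold IM ⊤ (ℝ × ℤ × ℝ))

lemma lie : LieGroup IM ⊤ G where
  toIsManifold := man
  contMDiff_mul := by
    have hk : ContMDiff (IM.prod IM) (modelWithCornersSelf ℝ (Fin 0 → ℝ)) ⊤
        fun p : G × G => p.1.2.1 + p.2.2.1 :=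
      (contMDiff_of_discreteTopology (I := (modelWithCornersSelf ℝ (Fin 0 → ℝ)).prod
        (modelWithCornersSelf ℝ (Fin 0 → ℝ))) (f := fun q : ℤ × ℤ => q.1 + q.2)).comp
        ((s2.comp contMDiff_fst).prodMk (s2.comp contMDiff_snd))
    exact ((s1.comp contMDiff_fst).add (s1.comp contMDiff_snd)).prodMk (hk.prodMk
      (((s3.comp contMDiff_fst).add (s3.comp contMDiff_snd)).add
        ((s1.comp contMDiff_fst).mul (sc.comp contMDiff_snd))))
  contMDiff_inv := by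
    have hk : ContMDiff IM (modelWithCornersSelf ℝ (Fin 0 → ℝ)) ⊤ fun g : G => -g.2.1 :=
      (contMDiff_of_discreteTopology (f := fun k : ℤ => -k)).comp s2
    exact s1.neg.prodMk (hk.prodMk (s3.neg.add (s1.mul sc)))

end

theorem result : IsTopologicalGroup G ∧ PolishSpace G ∧ Group.IsNilpotent G ∧ LieGroup IM ⊤ G ∧
    ∃ (Γ₁ Γ₂ : Subgroup G) (τ : G) (U₁ : Set (G ⧸ Γ₁)) (U₂ : Set (G ⧸ Γ₂))
      (x₁ : G ⧸ Γ₁) (x₂ : G ⧸ Γ₂),
      DiscreteTopology Γ₁ ∧ CompactSpace (G ⧸ Γ₁) ∧ DiscreteTopology Γ₂ ∧ CompactSpace (G ⧸ Γ₂) ∧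
      Minimal Γ₁ τ ∧ Minimal Γ₂ τ ∧ IsOpen U₁ ∧ IsOpen U₂ ∧ Asym Γ₁ U₁ ∧ Asym Γ₂ U₂ ∧
      {n : ℤ | τ ^ n • x₁ ∈ U₁} = {n : ℤ | τ ^ n • x₂ ∈ U₂} ∧
      ¬ ∃ φ : (G ⧸ Γ₁) ≃ₜ (G ⧸ Γ₂), (∀ x, φ (τ • x) = τ • φ x) ∧ φ x₁ = x₂ := by
  have hV : IsOpen V := isOpen_lt cw continuous_const
  refine ⟨instTG, inferInstanceAs (PolishSpace (ℝ × ℤ × ℝ)), nilp, lie, Gam 2, Gam 1, tau, U 2, U 1,
    QuotientGroup.mk 1, QuotientGroup.mk 1, disc 2, cpt 2 dvd_rfl, disc 1, cpt 1 (one_dvd _),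
    minimal 2 dvd_rfl, minimal 1 (one_dvd _), QuotientGroup.isOpenMap_coe _ hV,
    QuotientGroup.isOpenMap_coe _ hV, asym 2 dvd_rfl, asym 1 (one_dvd _), ?_, ?_⟩
  · ext n
    change tau ^ n * 1 ∈ QuotientGroup.mk ⁻¹' U 2 ↔ tau ^ n * 1 ∈ QuotientGroup.mk ⁻¹' U 1
    rw [pre, pre]
  · rintro ⟨φ, h1, h2⟩
    have hinv : ∀ x, φ (tau⁻¹ • x) = tau⁻¹ • φ x := fun x => by
      rw [eq_inv_smul_iff, ← h1, smul_inv_smul]
    have hz : ∀ (n : ℤ) x, φ (tau ^ n • x) = tau ^ n • φ x := by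
      intro n
      induction n using Int.induction_on with
      | zero => simp
      | succ n ih => intro x; rw [zpow_add_one, mul_smul, mul_smul, ih, h1]
      | pred n ih => intro x; rw [zpow_sub_one, mul_smul, mul_smul, ih, hinv]
    haveI : IsClosed ((Gam 1 : Subgroup G) : Set G) := Subgroup.isClosed_of_discrete
    have heq : (fun g : G => φ (QuotientGroup.mk g)) = fun g : G => QuotientGroup.mk g := by
      refine (up_dense 1).equalizer (φ.continuous.comp QuotientGroup.continuous_mk)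
        QuotientGroup.continuous_mk ?_
      funext ⟨n, γ⟩
      simp only [Function.comp]
      rw [QuotientGroup.mk_mul_of_mem _ γ.2,
        QuotientGroup.mk_mul_of_mem _ (gam_le 1 (one_dvd _) γ.2)]
      have := hz n (QuotientGroup.mk 1)
      rw [h2] at this
      exact this
    have e1 := congrFun heq (mk3 1 0 0)
    have e0 : (1 : G)⁻¹ * mk3 1 0 0 ∈ Gam 1 := by
      rw [inv_one, one_mul]
      exact ⟨1, 0, 0, by simp [k1], by simp [k2], by simp [k3]⟩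
    have e2 : (QuotientGroup.mk (mk3 1 0 0) : G ⧸ Gam 1) = QuotientGroup.mk 1 :=
      (QuotientGroup.eq.2 e0).symm
    rw [e2, ← h2] at e1
    obtain ⟨m, -, -, h3, -, -⟩ := QuotientGroup.eq.1 (φ.injective e1).symm
    simp only [inv_one, one_mul, k1] at h3
    have : (1 : ℤ) = 2 * m := by exact_mod_cast h3
    omega

end Pool.Agent.Results.MP_2aa58c_an.Counter
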